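import Mathlib
import Pool.Agent.Lib.MP_be95e3_co.Counting
import Pool.Agent.Lib.MP_be95e3_co.Box

set_option autoImplicit false

namespace Pool.Agent.Results.MP_be95e3_co.BergeCube

open Filter

/-- A (0,1)-matrix is simple if it has no repeated columns. -/
def IsSimple {R C : Type} (A : Matrix R C (Fin 2)) : Prop :=
  ∀ j j' : C, (∀ i : R, A i j = A i j') → j = j'

/-- `A` has `F` as a Berge hypergraph: after a row and column permutation `F` is entrywise at most
a submatrix of `A`. -/
def IsBerge {R C R' C' : Type} (F : Matrix R C (Fin 2)) (A : Matrix R' C' (Fin 2)) : Prop :=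
  ∃ (ρ : R ↪ R') (γ : C ↪ C'), ∀ i j, F i j ≤ A (ρ i) (γ j)

/-- The product of two matrices: all stackings of a column of `A` above a column of `B`. -/
def prodMat {R C R' C' : Type} (A : Matrix R C (Fin 2)) (B : Matrix R' C' (Fin 2)) :
    Matrix (R ⊕ R') (C × C') (Fin 2) :=
  Matrix.of fun i j => Sum.elim (fun r => A r j.1) (fun r => B r j.2) i

/-- The threefold product `I_t × I_t × I_t` of identity matrices. -/
def cube (t : ℕ) : Matrix (Fin t ⊕ Fin t ⊕ Fin t) (Fin t × Fin t × Fin t) (Fin 2) :=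
  prodMat (1 : Matrix (Fin t) (Fin t) (Fin 2))
    (prodMat (1 : Matrix (Fin t) (Fin t) (Fin 2)) (1 : Matrix (Fin t) (Fin t) (Fin 2)))

/-- `Bh(m, F)`: the largest number of columns of an `m`-rowed simple matrix with no Berge `F`. -/
noncomputable def Bh {R C : Type} (m : ℕ) (F : Matrix R C (Fin 2)) : ℕ :=
  sSup {n : ℕ | ∃ A : Matrix (Fin m) (Fin n) (Fin 2), IsSimple A ∧ ¬ IsBerge F A}

/-- `f(F, P)`: the largest number of columns of an `m`-rowed simple matrix that is a Berge
hypergraph of `P` and has no Berge `F`. -/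
noncomputable def fP {R C R' C' : Type} (m : ℕ) (F : Matrix R C (Fin 2))
    (P : Matrix R' C' (Fin 2)) : ℕ :=
  sSup {n : ℕ | ∃ A : Matrix (Fin m) (Fin n) (Fin 2), IsSimple A ∧ IsBerge A P ∧ ¬ IsBerge F A}

open Pool.Agent.Lib.MP_be95e3_co

lemma simple_le {m n : ℕ} {A : Matrix (Fin m) (Fin n) (Fin 2)} (h : IsSimple A) : n ≤ 2 ^ m := by
  have := Fintype.card_le_of_injective (fun (j : Fin n) (i : Fin m) => A i j)
    (fun j j' hj => h j j' (fun i => congrFun hj i))
  simpa using this

lemma cube_1 (t : ℕ) (i : Fin t) (c : Fin t × Fin t × Fin t) :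
    cube t (Sum.inl i) c = if i = c.1 then 1 else 0 := by
  simp [cube, prodMat, Matrix.one_apply]

lemma cube_2 (t : ℕ) (i : Fin t) (c : Fin t × Fin t × Fin t) :
    cube t (Sum.inr (Sum.inl i)) c = if i = c.2.1 then 1 else 0 := by
  simp [cube, prodMat, Matrix.one_apply]

lemma cube_3 (t : ℕ) (i : Fin t) (c : Fin t × Fin t × Fin t) :
    cube t (Sum.inr (Sum.inr i)) c = if i = c.2.2 then 1 else 0 := by
  simp [cube, prodMat, Matrix.one_apply]

lemma card_le_Bh {V : Type*} {m : ℕ} (e : V ↪ Fin m) (𝒜 : Finset (Finset V))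
    (h : ∀ (a b c : Fin 2 → V) (S : Fin 2 → Fin 2 → Fin 2 → Finset V), (∀ i j k, S i j k ∈ 𝒜) →
      (∀ i j k, a i ∈ S i j k) → (∀ i j k, b j ∈ S i j k) → (∀ i j k, c k ∈ S i j k) →
      (∀ i j, a i ≠ b j) → (∀ i k, a i ≠ c k) → (∀ j k, b j ≠ c k) →
      a 1 = a 0 ∨ b 1 = b 0 ∨ c 1 = c 0) :
    𝒜.card ≤ Bh m (cube 2) := by
  apply le_csSup
  · exact ⟨2 ^ m, fun n ⟨A, hA, _⟩ => simple_le hA⟩
  let col : Fin 𝒜.card → Finset V := fun j => (𝒜.equivFin.symm j).1
  have hcol : ∀ j, col j ∈ 𝒜 := fun j => (𝒜.equivFin.symm j).2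
  refine ⟨Matrix.of fun i j => if i ∈ (col j).map e then 1 else 0, ?_, ?_⟩
  · intro j j' hj
    apply 𝒜.equivFin.symm.injective
    apply Subtype.ext
    apply Finset.map_injective e
    ext i
    have := hj i
    simp only [Matrix.of_apply] at this
    by_cases h1 : i ∈ (col j).map e <;> by_cases h2 : i ∈ (col j').map e
    · exact ⟨fun _ => h2, fun _ => h1⟩
    · simp only [h1, h2, if_true, if_false] at this
      exact absurd this (by decide)
    · simp only [h1, h2, if_true, if_false] at this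
      exact absurd this (by decide)
    · exact ⟨fun h => absurd h h1, fun h => absurd h h2⟩
  · rintro ⟨ρ, γ, hle⟩
    have key : ∀ r c, cube 2 r c = 1 → ∃ v ∈ col (γ c), e v = ρ r := by
      intro r c hrc
      have := hle r c
      rw [hrc, Matrix.of_apply] at this
      split_ifs at this with h1
      · simpa using h1
      · exact absurd this (by decide)
    have k1 : ∀ i j k : Fin 2, ∃ v ∈ col (γ (i, j, k)), e v = ρ (Sum.inl i) :=
      fun i j k => key _ _ (by simp [cube_1])
    have k2 : ∀ i j k : Fin 2, ∃ v ∈ col (γ (i, j, k)), e v = ρ (Sum.inr (Sum.inl j)) :=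
      fun i j k => key _ _ (by simp [cube_2])
    have k3 : ∀ i j k : Fin 2, ∃ v ∈ col (γ (i, j, k)), e v = ρ (Sum.inr (Sum.inr k)) :=
      fun i j k => key _ _ (by simp [cube_3])
    choose a ha ha' using k1
    choose b hb hb' using k2
    choose c hc hc' using k3
    have := h (fun i => a i 0 0) (fun j => b 0 j 0) (fun k => c 0 0 k)
      (fun i j k => col (γ (i, j, k))) (fun i j k => hcol _)
      (fun i j k => by
        have : a i 0 0 = a i j k := e.injective ((ha' i 0 0).trans (ha' i j k).symm)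
        simp only [this]; exact ha i j k)
      (fun i j k => by
        have : b 0 j 0 = b i j k := e.injective ((hb' 0 j 0).trans (hb' i j k).symm)
        simp only [this]; exact hb i j k)
      (fun i j k => by
        have : c 0 0 k = c i j k := e.injective ((hc' 0 0 k).trans (hc' i j k).symm)
        simp only [this]; exact hc i j k)
      (fun i j hij => by
        have := congrArg e hij
        simp only [ha', hb'] at this
        simpa using ρ.injective this)
      (fun i j hij => by
        have := congrArg e hij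
        simp only [ha', hc'] at this
        simpa using ρ.injective this)
      (fun i j hij => by
        have := congrArg e hij
        simp only [hb', hc'] at this
        simpa using ρ.injective this)
    rcases this with h1 | h1 | h1
    · have := congrArg e h1
      simp only [ha'] at this
      simpa using ρ.injective this
    · have := congrArg e h1
      simp only [hb'] at this
      simpa using ρ.injective this
    · have := congrArg e h1
      simp only [hc'] at this
      simpa using ρ.injective this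

lemma Bh_gen {F : Type*} [Field F] [Fintype F] (h2 : (2 : F) ≠ 0) {i : F} (hi : i * i = -1)
    {nu : F} (hnu : ¬ IsSquare nu) (m : ℕ) (hq : 20 ≤ Fintype.card F)
    (hm : Fintype.card F ^ 3 ≤ m) :
    Fintype.card F ^ 9 ≤ 131072 * Bh m (cube 2) := by
  classical
  have hnu0 : nu ≠ 0 := by
    rintro rfl
    exact hnu ⟨0, by simp⟩
  have he : ¬ IsSquare (-(-4 * nu)) := by
    rintro ⟨r, hr⟩
    apply hnu
    refine ⟨r / 2, ?_⟩
    field_simp
    linear_combination hr
  let enc : F × F × F → ℕ := fun x => (Fintype.equivFin (F × F × F) x : ℕ)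
  have henc : Function.Injective enc := fun x y h =>
    (Fintype.equivFin (F × F × F)).injective (Fin.ext h)
  let H : Set (F × F × F) := {v | enc v ≤ enc (-v)}
  have hH1 : ∀ v, v ∈ H ∨ -v ∈ H := by
    intro v
    simp only [H, Set.mem_ofPred_eq, neg_neg]
    omega
  have hH2 : ∀ v ∈ H, -v ∈ H → -v = v := by
    intro v h1 h3
    simp only [H, Set.mem_ofPred_eq, neg_neg] at h1 h3
    apply henc
    omega
  have hcard : Fintype.card (F × F × F) ≤ Fintype.card (Fin m) := by
    simp only [Fintype.card_prod, Fintype.card_fin]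
    calc _ = Fintype.card F ^ 3 := by ring
      _ ≤ m := hm
  obtain ⟨e⟩ := Function.Embedding.nonempty_of_card_le hcard
  have hB := card_le_Bh e
    (Finset.univ.filter (fun S : Finset (F × F × F) => Good (-4 * nu) H S))
    (fun a b c S hS ha hb hc hab hac hbc => no_octahedron h2 he hH2 a b c S
      (fun i j k => (Finset.mem_filter.mp (hS i j k)).2) ha hb hc hab hac hbc)
  have hmany := many_good h2 hi hnu0 hH1
  generalize Fintype.card F = q at hmany hq ⊢
  have a1 : q ≤ 2 * (q - 1) := by omega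
  have a2 : q ≤ 2 * (q - 10) := by omega
  calc q ^ 9 = q * q * q * (q ^ 4 * q ^ 2) := by ring
    _ ≤ (2 * (q - 1)) * q * (2 * (q - 10)) * (q ^ 4 * (2 * (q - 1)) ^ 2) := by gcongr
    _ = 16 * ((q - 1) * q * (q - 10) * (q ^ 4 * (q - 1) ^ 2)) := by ring
    _ ≤ 16 * (8192 * Bh m (cube 2)) :=
        Nat.mul_le_mul_left _ (hmany.trans (Nat.mul_le_mul_left _ (by convert hB)))
    _ = _ := by ring

lemma Bh_field (j m : ℕ) (hj : 2 ≤ j) (hm : (5 ^ j) ^ 3 ≤ m) :
    (5 ^ j) ^ 9 ≤ 131072 * Bh m (cube 2) := by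
  have : Fact (Nat.Prime 5) := ⟨by norm_num⟩
  let : Fintype (GaloisField 5 j) := Fintype.ofFinite _
  have hq : Fintype.card (GaloisField 5 j) = 5 ^ j := by
    rw [← Nat.card_eq_fintype_card]
    exact GaloisField.card 5 j (by omega)
  have h5 : (5 : GaloisField 5 j) = 0 := by
    have := CharP.cast_eq_zero (GaloisField 5 j) 5
    exact_mod_cast this
  have h2 : (2 : GaloisField 5 j) ≠ 0 := by
    intro h
    have : (1 : GaloisField 5 j) = 0 := by linear_combination h5 - 2 * h
    exact one_ne_zero this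
  have hi : (2 : GaloisField 5 j) * 2 = -1 := by linear_combination h5
  obtain ⟨nu, hnu⟩ := FiniteField.exists_nonsquare (F := GaloisField 5 j) (by
    rw [ringChar.eq (GaloisField 5 j) 5]; norm_num)
  have hq25 : 25 ≤ 5 ^ j := by
    calc 25 = 5 ^ 2 := by norm_num
      _ ≤ 5 ^ j := Nat.pow_le_pow_right (by norm_num) hj
  have := Bh_gen h2 hi hnu m (by rw [hq]; omega) (by rw [hq]; exact hm)
  rwa [hq] at this

lemma Bh_cubic (m : ℕ) (hm : 25 ^ 3 ≤ m) : m ^ 3 ≤ 5 ^ 9 * 131072 * Bh m (cube 2) := by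
  have hm0 : m ≠ 0 := by
    intro h; rw [h] at hm; norm_num at hm
  let j := Nat.log 125 m
  have h1 : 125 ^ j ≤ m := Nat.pow_log_le_self 125 hm0
  have h2 : m < 125 ^ (j + 1) := Nat.lt_pow_succ_log_self (by norm_num) m
  have hj : 2 ≤ j := by
    apply Nat.le_log_of_pow_le (by norm_num)
    exact le_trans (by norm_num) hm
  have h3 : (5 ^ j) ^ 3 = 125 ^ j := by
    rw [← pow_mul, mul_comm, pow_mul]
    norm_num
  have h4 := Bh_field j m hj (h3 ▸ h1)
  calc m ^ 3 ≤ (125 ^ (j + 1)) ^ 3 := Nat.pow_le_pow_left h2.le 3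
    _ = 5 ^ 9 * (5 ^ j) ^ 9 := by rw [pow_succ 125, ← h3]; ring
    _ ≤ 5 ^ 9 * (131072 * Bh m (cube 2)) := Nat.mul_le_mul_left _ h4
    _ = _ := by ring

lemma fin2_one {x : Fin 2} (h : ¬ x = 1) : x = 0 := by
  fin_cases x
  · rfl
  · exact absurd rfl h

lemma upper {k n : ℕ} (A : Matrix (Fin (3 * k)) (Fin n) (Fin 2)) (hs : IsSimple A)
    (hP : IsBerge A (cube k)) (hF : ¬ IsBerge (cube 2) A) :
    ∃ N : ℕ, n ≤ 36 * k ^ 2 + N ∧ (N : ℝ) ^ 8 ≤ 3 * (k : ℝ) ^ 23 := by
  classical
  obtain ⟨ρ, γ, hle⟩ := hP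
  have hbij : Function.Bijective ρ := by
    rw [Fintype.bijective_iff_injective_and_card]
    refine ⟨ρ.injective, ?_⟩
    simp; ring
  let σ := (Equiv.ofBijective ρ hbij).symm
  have hσ : ∀ r, σ (ρ r) = r := fun r => (Equiv.ofBijective ρ hbij).symm_apply_apply r
  let J : Finset (Fin n) := Finset.univ.filter (fun j => A (σ (Sum.inl (γ j).1)) j = 1 ∧
    A (σ (Sum.inr (Sum.inl (γ j).2.1))) j = 1 ∧ A (σ (Sum.inr (Sum.inr (γ j).2.2))) j = 1)
  refine ⟨J.card, ?_, ?_⟩
  · have hc : Jᶜ.card ≤ 36 * k ^ 2 := by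
      let supp : Fin n → Finset (Fin (3 * k)) := fun j => Finset.univ.filter (fun r => A r j = 1)
      have hsupp : ∀ j r, r ∈ supp j → r = σ (Sum.inl (γ j).1) ∨
          r = σ (Sum.inr (Sum.inl (γ j).2.1)) ∨ r = σ (Sum.inr (Sum.inr (γ j).2.2)) := by
        intro j r hr
        have h1 : A r j = 1 := by simpa [supp] using hr
        have h2 := hle r j
        rw [h1] at h2
        rw [← hσ r]
        rcases hρ : ρ r with x | x | x
        · rw [hρ, cube_1] at h2
          split_ifs at h2 with h3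
          · left; rw [h3]
          · exact absurd h2 (by decide)
        · rw [hρ, cube_2] at h2
          split_ifs at h2 with h3
          · right; left; rw [h3]
          · exact absurd h2 (by decide)
        · rw [hρ, cube_3] at h2
          split_ifs at h2 with h3
          · right; right; rw [h3]
          · exact absurd h2 (by decide)
      calc Jᶜ.card ≤ ((Finset.univ : Finset (Fin (3 * k) × Fin (3 * k))).biUnion
            (fun p => ({p.1, p.2} : Finset (Fin (3 * k))).powerset)).card := by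
            apply Finset.card_le_card_of_injOn supp
            · intro j hj
              have hj' : ¬ (A (σ (Sum.inl (γ j).1)) j = 1 ∧
                  A (σ (Sum.inr (Sum.inl (γ j).2.1))) j = 1 ∧
                  A (σ (Sum.inr (Sum.inr (γ j).2.2))) j = 1) := by
                simpa [J] using hj
              have hmem : ∀ r, r ∈ supp j → A r j = 1 := fun r hr => by simpa [supp] using hr
              simp only [Finset.coe_biUnion, Finset.mem_coe, Finset.mem_univ, Set.iUnion_true,
                Set.mem_iUnion, Finset.mem_powerset]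
              by_cases c1 : A (σ (Sum.inl (γ j).1)) j = 1
              · by_cases c2 : A (σ (Sum.inr (Sum.inl (γ j).2.1))) j = 1
                · refine ⟨(σ (Sum.inl (γ j).1), σ (Sum.inr (Sum.inl (γ j).2.1))), fun r hr => ?_⟩
                  rcases hsupp j r hr with h | h | h
                  · simp [h]
                  · simp [h]
                  · exact absurd ⟨c1, c2, h ▸ hmem r hr⟩ hj'
                · refine ⟨(σ (Sum.inl (γ j).1), σ (Sum.inr (Sum.inr (γ j).2.2))), fun r hr => ?_⟩
                  rcases hsupp j r hr with h | h | h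
                  · simp [h]
                  · exact absurd (h ▸ hmem r hr) c2
                  · simp [h]
              · refine ⟨(σ (Sum.inr (Sum.inl (γ j).2.1)), σ (Sum.inr (Sum.inr (γ j).2.2))),
                  fun r hr => ?_⟩
                rcases hsupp j r hr with h | h | h
                · exact absurd (h ▸ hmem r hr) c1
                · simp [h]
                · simp [h]
            · intro j _ j' _ h
              apply hs
              intro r
              have : r ∈ supp j ↔ r ∈ supp j' := by rw [h]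
              simp only [supp, Finset.mem_filter, Finset.mem_univ, true_and] at this
              by_cases h1 : A r j = 1
              · rw [h1, this.mp h1]
              · rw [fin2_one h1, fin2_one (fun h2 => h1 (this.mpr h2))]
        _ ≤ ∑ p : Fin (3 * k) × Fin (3 * k),
              (({p.1, p.2} : Finset (Fin (3 * k))).powerset).card := Finset.card_biUnion_le
        _ ≤ ∑ _p : Fin (3 * k) × Fin (3 * k), 4 := by
            apply Finset.sum_le_sum
            intro p _
            rw [Finset.card_powerset]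
            calc _ ≤ 2 ^ 2 := Nat.pow_le_pow_right (by norm_num) Finset.card_le_two
              _ = 4 := by norm_num
        _ = 36 * k ^ 2 := by simp; ring
    have := Finset.card_add_card_compl J
    rw [Fintype.card_fin] at this
    omega
  · have hb := box_bound (J.map γ) (by
      intro x y z hall
      by_contra hne
      push Not at hne
      obtain ⟨hx, hy, hz⟩ := hne
      have inj2 : ∀ {u : Fin 2 → Fin k}, u 1 ≠ u 0 → Function.Injective u := by
        intro u hu i j hij
        fin_cases i <;> fin_cases j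
        · rfl
        · exact absurd hij.symm hu
        · exact absurd hij hu
        · rfl
      have hex : ∀ c : Fin 2 × Fin 2 × Fin 2, ∃ j ∈ J, γ j = (x c.1, y c.2.1, z c.2.2) :=
        fun c => by simpa using hall c.1 c.2.1 c.2.2
      choose col hcolJ hcol using hex
      apply hF
      refine ⟨⟨fun r => σ (Sum.map x (Sum.map y z) r), ?_⟩, ⟨col, ?_⟩, ?_⟩
      · exact σ.injective.comp ((inj2 hx).sumMap ((inj2 hy).sumMap (inj2 hz)))
      · rintro ⟨c1, c2, c3⟩ ⟨d1, d2, d3⟩ h
        have := (hcol _).symm.trans ((congrArg γ h).trans (hcol _))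
        simp only [Prod.mk.injEq] at this
        rw [inj2 hx this.1, inj2 hy this.2.1, inj2 hz this.2.2]
      · intro r c
        have hJ := (Finset.mem_filter.mp (hcolJ c)).2
        rw [hcol c] at hJ
        simp only [Function.Embedding.coeFn_mk]
        rcases r with i | i | i
        · rw [cube_1]
          split_ifs with h
          · subst h; exact hJ.1.ge
          · exact Fin.zero_le _
        · rw [cube_2]
          split_ifs with h
          · subst h; exact hJ.2.1.ge
          · exact Fin.zero_le _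
        · rw [cube_3]
          split_ifs with h
          · subst h; exact hJ.2.2.ge
          · exact Fin.zero_le _)
    simpa using hb

lemma zero_col (k n : ℕ) (hn : n ≤ 1) (hk : n ≤ k) :
    ∃ A : Matrix (Fin (3 * k)) (Fin n) (Fin 2),
      IsSimple A ∧ IsBerge A (cube k) ∧ ¬ IsBerge (cube 2) A := by
  refine ⟨0, ?_, ?_, ?_⟩
  · intro j j' _
    apply Fin.ext
    omega
  · obtain ⟨ρ⟩ := Function.Embedding.nonempty_of_card_le
      (α := Fin (3 * k)) (β := Fin k ⊕ Fin k ⊕ Fin k) (by simp; omega)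
    refine ⟨ρ, ⟨fun j => (Fin.castLE hk j, Fin.castLE hk j, Fin.castLE hk j), ?_⟩, ?_⟩
    · intro j j' _
      apply Fin.ext
      omega
    · intro i j
      exact Fin.zero_le _
  · rintro ⟨-, γ, -⟩
    have := Fintype.card_le_of_embedding γ
    simp at this
    omega

lemma fP_bdd (k : ℕ) : BddAbove {n : ℕ | ∃ A : Matrix (Fin (3 * k)) (Fin n) (Fin 2),
    IsSimple A ∧ IsBerge A (cube k) ∧ ¬ IsBerge (cube 2) A} :=
  ⟨2 ^ (3 * k), fun _ ⟨_, hA, _⟩ => simple_le hA⟩

lemma fP_pos (k : ℕ) (hk : 1 ≤ k) : 1 ≤ fP (3 * k) (cube 2) (cube k) :=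
  le_csSup (fP_bdd k) (zero_col k 1 le_rfl hk)

lemma fP_upper (k : ℕ) :
    ∃ N : ℕ, fP (3 * k) (cube 2) (cube k) ≤ 36 * k ^ 2 + N ∧ (N : ℝ) ^ 8 ≤ 3 * (k : ℝ) ^ 23 := by
  obtain ⟨A, h1, h2, h3⟩ := Nat.sSup_mem ⟨0, zero_col k 0 (by omega) (by omega)⟩ (fP_bdd k)
  exact upper A h1 h2 h3

/-- The ratio `Bh(m, I_2×I_2×I_2) / f(I_2×I_2×I_2, I_{m/3}×I_{m/3}×I_{m/3})` tends to infinity
as `m = 3k` tends to infinity. -/
theorem result :
    Tendsto (fun k : ℕ => (Bh (3 * k) (cube 2) : ℝ) / (fP (3 * k) (cube 2) (cube k) : ℝ))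
      atTop atTop := by
  rw [tendsto_atTop]
  intro M
  set C : ℝ := 5 ^ 9 * 131072 with hC
  set L : ℝ := max M 1 * C with hL
  have hC1 : 1 ≤ C := by rw [hC]; norm_num
  have hL1 : 1 ≤ L := by
    rw [hL]; nlinarith [le_max_right M 1]
  have ev1 : ∀ᶠ k : ℕ in atTop, 36 * L ≤ (k : ℝ) :=
    tendsto_natCast_atTop_atTop.eventually_ge_atTop _
  have ev2 : ∀ᶠ k : ℕ in atTop, 3 * L ^ 8 ≤ (k : ℝ) :=
    tendsto_natCast_atTop_atTop.eventually_ge_atTop _
  filter_upwards [ev1, ev2, eventually_ge_atTop (25 ^ 3)] with k h1 h2 h3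
  obtain ⟨N, hN1, hN2⟩ := fP_upper k
  have hk1 : 1 ≤ k := le_trans (by norm_num) h3
  have hkpos : (0 : ℝ) < k := by exact_mod_cast hk1
  have hf : (0 : ℝ) < fP (3 * k) (cube 2) (cube k) := by exact_mod_cast fP_pos k hk1
  have hB : ((3 * k : ℕ) : ℝ) ^ 3 ≤ C * Bh (3 * k) (cube 2) := by
    have := Bh_cubic (3 * k) (by omega)
    rw [hC]
    exact_mod_cast this
  have hN3 : L * N ≤ (k : ℝ) ^ 3 := by
    apply le_of_pow_le_pow_left₀ (n := 8) (by norm_num) (by positivity)
    calc (L * N) ^ 8 = L ^ 8 * (N : ℝ) ^ 8 := by ring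
      _ ≤ L ^ 8 * (3 * (k : ℝ) ^ 23) := by gcongr
      _ = (3 * L ^ 8) * (k : ℝ) ^ 23 := by ring
      _ ≤ k * (k : ℝ) ^ 23 := by gcongr
      _ = _ := by ring
  have hN4 : L * (36 * (k : ℝ) ^ 2) ≤ (k : ℝ) ^ 3 := by
    calc L * (36 * (k : ℝ) ^ 2) = (36 * L) * (k : ℝ) ^ 2 := by ring
      _ ≤ k * (k : ℝ) ^ 2 := by gcongr
      _ = _ := by ring
  have hN1' : (fP (3 * k) (cube 2) (cube k) : ℝ) ≤ 36 * (k : ℝ) ^ 2 + N := by exact_mod_cast hN1
  rw [le_div_iff₀ hf]
  have h5 : L * fP (3 * k) (cube 2) (cube k) ≤ C * Bh (3 * k) (cube 2) := by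
    calc L * fP (3 * k) (cube 2) (cube k) ≤ L * (36 * (k : ℝ) ^ 2 + N) := by gcongr
      _ ≤ (k : ℝ) ^ 3 + (k : ℝ) ^ 3 := by rw [mul_add]; exact add_le_add hN4 hN3
      _ ≤ ((3 * k : ℕ) : ℝ) ^ 3 := by push_cast; nlinarith [pow_pos hkpos 3]
      _ ≤ _ := hB
  have h6 : max M 1 * fP (3 * k) (cube 2) (cube k) ≤ Bh (3 * k) (cube 2) := by
    have : C * (max M 1 * fP (3 * k) (cube 2) (cube k)) ≤ C * Bh (3 * k) (cube 2) := by
      calc _ = L * fP (3 * k) (cube 2) (cube k) := by rw [hL]; ring
        _ ≤ _ := h5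
    exact le_of_mul_le_mul_left this (by linarith)
  exact le_trans (mul_le_mul_of_nonneg_right (le_max_left M 1) hf.le) h6

end Pool.Agent.Results.MP_be95e3_co.BergeCube
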