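import Mathlib
import Pool.Agent.Results.MP_be95e3_co.BergeCube

set_option autoImplicit false

namespace Pool.Agent.Results.MP_be95e3_co.CubicLower

open Pool.Agent.Results.MP_be95e3_co.BergeCube

/-- `Bh(m, I_2×I_2×I_2) = Ω(m^3)`. -/
theorem result :
    ∃ c : ℝ, 0 < c ∧ ∃ m₀ : ℕ, ∀ m : ℕ, m₀ ≤ m → c * (m : ℝ) ^ 3 ≤ (Bh m (cube 2) : ℝ) := by
  refine ⟨1 / (5 ^ 9 * 131072), by positivity, 25 ^ 3, fun m hm => ?_⟩
  have h : (m : ℝ) ^ 3 ≤ 5 ^ 9 * 131072 * (Bh m (cube 2) : ℝ) := by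
    exact_mod_cast Bh_cubic m hm
  rw [div_mul_eq_mul_div, one_mul, div_le_iff₀ (by positivity)]
  linarith

end Pool.Agent.Results.MP_be95e3_co.CubicLower
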